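import Pool.Agent.Seat74.Null.Seq

/-!
The transitive null system: the orbit closure of `n ↦ cos (L (ψ(n)))`.
-/

set_option autoImplicit false

namespace Pool.Agent.Seat74.Null

open Filter Topology Finset

/-- the sequence -/
noncomputable def f (n : ℕ) : ℝ := G (psi n)

lemma f_mem (n : ℕ) : f n ∈ Set.Icc (-1 : ℝ) 1 := ⟨Real.neg_one_le_cos _, Real.cos_le_one _⟩

/-- sequences in `[-1,1]` -/
def Y : Type := ℕ → Set.Icc (-1 : ℝ) 1

noncomputable instance : MetricSpace Y := PiCountable.metricSpace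

instance : CompactSpace Y := inferInstanceAs (CompactSpace (ℕ → Set.Icc (-1 : ℝ) 1))

/-- coordinates -/
def co (y : Y) (i : ℕ) : ℝ := (y i : Set.Icc (-1 : ℝ) 1)

lemma continuous_co (i : ℕ) : Continuous fun y : Y => co y i :=
  continuous_subtype_val.comp (continuous_apply (A := fun _ : ℕ => Set.Icc (-1 : ℝ) 1) i)

lemma min_le_dist (x y : Y) : min 1 |co x 0 - co y 0| ≤ dist x y := by
  have h := PiCountable.min_dist_le_dist_pi (F := fun _ : ℕ => Set.Icc (-1 : ℝ) 1) x y 0
  rw [Encodable.encode_nat, pow_zero] at h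
  exact h

lemma dist_small {ε : ℝ} (hε : 0 < ε) : ∃ I : ℕ, 1 ≤ I ∧ ∃ ε' : ℝ, 0 < ε' ∧ ∀ x y : Y,
    (∀ i < I, |co x i - co y i| < ε') → dist x y < ε := by
  obtain ⟨I, hI⟩ := exists_pow_lt_of_lt_one (show 0 < ε / 4 by positivity) (show (2⁻¹ : ℝ) < 1 by norm_num)
  have hI' : (2⁻¹ : ℝ) ^ (I + 1) < ε / 4 := by
    refine lt_of_le_of_lt ?_ hI
    exact pow_le_pow_of_le_one (by norm_num) (by norm_num) (by omega)
  refine ⟨I + 1, by omega, ε / (2 * (I + 1)), by positivity, fun x y h => ?_⟩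
  have hd : dist x y = ∑' i : ℕ, min ((2⁻¹ : ℝ) ^ i) |co x i - co y i| := rfl
  have hs : Summable fun i : ℕ => min ((2⁻¹ : ℝ) ^ i) |co x i - co y i| :=
    PiCountable.dist_summable (F := fun _ : ℕ => Set.Icc (-1 : ℝ) 1) x y
  rw [hd, ← hs.sum_add_tsum_nat_add (I + 1)]
  have h1 : ∑ i ∈ range (I + 1), min ((2⁻¹ : ℝ) ^ i) |co x i - co y i| ≤
      ∑ i ∈ range (I + 1), ε / (2 * (I + 1)) := by
    apply sum_le_sum
    intro i hi
    rw [mem_range] at hi
    exact (min_le_right _ _).trans (h i hi).le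
  have h2 : ∑ i ∈ range (I + 1), ε / (2 * ((I : ℝ) + 1)) = ε / 2 := by
    rw [sum_const, card_range, nsmul_eq_mul]
    push_cast
    field_simp
  have hg : Summable fun i : ℕ => (2⁻¹ : ℝ) ^ (I + 1) * (2⁻¹ : ℝ) ^ i :=
    (summable_geometric_of_lt_one (by norm_num) (by norm_num)).mul_left _
  have h3 : ∑' i : ℕ, min ((2⁻¹ : ℝ) ^ (i + (I + 1))) |co x (i + (I + 1)) - co y (i + (I + 1))| ≤
      ∑' i : ℕ, (2⁻¹ : ℝ) ^ (I + 1) * (2⁻¹ : ℝ) ^ i := by
    have hle : ∀ i : ℕ, min ((2⁻¹ : ℝ) ^ (i + (I + 1))) |co x (i + (I + 1)) - co y (i + (I + 1))| ≤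
        (2⁻¹ : ℝ) ^ (I + 1) * (2⁻¹ : ℝ) ^ i := by
      intro i
      refine (min_le_left _ _).trans_eq ?_
      rw [pow_add]
      ring
    refine Summable.tsum_le_tsum hle ?_ hg
    exact Summable.of_nonneg_of_le (fun i => le_min (by positivity) (abs_nonneg _)) hle hg
  rw [tsum_mul_left, tsum_geometric_of_lt_one (by norm_num) (by norm_num)] at h3
  norm_num at h3 hI'
  have h4 : ((1 : ℝ) / 2) ^ (I + 1) * 2 < ε / 2 := by linarith
  calc _ ≤ ε / 2 + (1 / 2) ^ (I + 1) * 2 := add_le_add (h1.trans_eq h2) (by simpa using h3)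
    _ < ε := by linarith

/-- the orbit of `f` -/
noncomputable def O (k : ℕ) : Y := fun i => ⟨f (k + i), f_mem _⟩

lemma co_O (k i : ℕ) : co (O k) i = f (k + i) := rfl

/-- the phase space -/
def X : Type := {y : Y // y ∈ closure (Set.range O)}

noncomputable instance : MetricSpace X := inferInstanceAs (MetricSpace {y : Y // y ∈ closure (Set.range O)})

instance : CompactSpace X := isCompact_iff_compactSpace.1 isClosed_closure.isCompact

/-- the shift on `Y` -/
def shift (y : Y) : Y := fun i => y (i + 1)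

lemma continuous_shift : Continuous shift :=
  continuous_pi (A := fun _ : ℕ => Set.Icc (-1 : ℝ) 1) fun i =>
    continuous_apply (A := fun _ : ℕ => Set.Icc (-1 : ℝ) 1) (i + 1)

lemma shift_O (k : ℕ) : shift (O k) = O (k + 1) := by
  funext i
  apply Subtype.ext
  change f (k + (i + 1)) = f (k + 1 + i)
  congr 1
  omega

/-- the map -/
def T (x : X) : X := ⟨shift x.1, by
  have h : Set.MapsTo shift (Set.range O) (Set.range O) := by
    rintro _ ⟨k, rfl⟩
    exact ⟨k + 1, (shift_O k).symm⟩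
  exact h.closure continuous_shift x.2⟩

lemma continuous_T : Continuous T :=
  Continuous.subtype_mk (continuous_shift.comp continuous_subtype_val) _

lemma co_iter (m : ℕ) : ∀ (x : X) (i : ℕ), co (T^[m] x).1 i = co x.1 (m + i) := by
  induction m with
  | zero => intro x i; simp
  | succ m ih =>
    intro x i
    rw [Function.iterate_succ_apply, ih]
    change co x.1 (m + i + 1) = _
    congr 1
    omega

/-- orbit points in `X` -/
noncomputable def OX (k : ℕ) : X := ⟨O k, subset_closure ⟨k, rfl⟩⟩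

lemma T_OX (k : ℕ) : T (OX k) = OX (k + 1) := Subtype.ext (shift_O k)

lemma iter_OX (m k : ℕ) : T^[m] (OX k) = OX (k + m) := by
  induction m generalizing k with
  | zero => rfl
  | succ m ih =>
    rw [Function.iterate_succ_apply, T_OX, ih]
    congr 1
    omega

lemma tendsto_OX {n : ℕ → ℕ} {x : X} (h : ∀ i, Tendsto (fun K => f (n K + i)) atTop (𝓝 (co x.1 i))) :
    Tendsto (fun K => OX (n K)) atTop (𝓝 x) := by
  refine (Topology.IsInducing.subtypeVal (t := closure (Set.range O))).tendsto_nhds_iff.2 ?_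
  apply tendsto_pi_nhds (A := fun _ : ℕ => Set.Icc (-1 : ℝ) 1) |>.2
  intro i
  rw [tendsto_subtype_rng]
  exact h i

lemma dense_OX : DenseRange OX := by
  intro x
  rw [mem_closure_iff_nhds]
  intro U hU
  obtain ⟨V, hV, hVU⟩ := mem_nhds_induced (fun x : X => x.1) x U |>.1 hU
  obtain ⟨_, hy, k, rfl⟩ := mem_closure_iff_nhds.1 x.2 V hV
  exact ⟨OX k, hVU hy, k, rfl⟩

lemma f_recur (n : ℕ) : Tendsto (fun K => f (n + q K)) atTop (𝓝 (f n)) := by
  rw [tendsto_iff_dist_tendsto_zero]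
  have h : ∀ K, dist (f (n + q K)) (f n) ≤ ((n : ℝ) + 1) ^ 2 * (1 / 4) ^ K := fun K =>
    (G_lip (psi_nonneg _) (psi_nonneg _)).trans (psi_recur n K)
  refine squeeze_zero (fun K => dist_nonneg) h ?_
  rw [show (0 : ℝ) = ((n : ℝ) + 1) ^ 2 * 0 by ring]
  exact (tendsto_pow_atTop_nhds_zero_of_lt_one (by norm_num) (by norm_num)).const_mul _

theorem transitive (U V : Set X) (hU : IsOpen U) (hV : IsOpen V) (hU0 : U.Nonempty) (hV0 : V.Nonempty) :
    ∃ n : ℕ, 1 ≤ n ∧ (V ∩ T^[n] ⁻¹' U).Nonempty := by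
  obtain ⟨k, hk⟩ := dense_OX.exists_mem_open hU hU0
  obtain ⟨l, hl⟩ := dense_OX.exists_mem_open hV hV0
  have h1 : Tendsto (fun K => OX (k + q K)) atTop (𝓝 (OX k)) := by
    apply tendsto_OX
    intro i
    have := f_recur (k + i)
    refine this.congr fun K => ?_
    congr 1
    omega
  have h2 := (h1.eventually (hU.mem_nhds hk)).and (q_tendsto.eventually_gt_atTop l)
  obtain ⟨K, hK1, hK2⟩ := h2.exists
  refine ⟨k + q K - l, by omega, OX l, hl, ?_⟩
  rw [Set.mem_preimage, iter_OX, show l + (k + q K - l) = k + q K by omega]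
  exact hK1

lemma approx (x : X) (s : Finset ℕ) {δ : ℝ} (hδ : 0 < δ) : ∃ k, ∀ i ∈ s, |co x.1 i - f (k + i)| < δ := by
  have h : ∀ᶠ y : Y in 𝓝 x.1, ∀ i ∈ s, |co x.1 i - co y i| < δ := by
    rw [Finset.eventually_all]
    intro i _
    have h1 : Tendsto (fun y : Y => |co x.1 i - co y i|) (𝓝 x.1) (𝓝 0) := by
      have := ((continuous_const (y := co x.1 i)).sub (continuous_co i)).abs.tendsto x.1
      simpa using this
    exact h1.eventually (gt_mem_nhds hδ)
  obtain ⟨_, hy, k, rfl⟩ := mem_closure_iff_nhds.1 x.2 _ h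
  exact ⟨k, hy⟩

theorem null (a : ℕ → ℕ) (ε : ℝ) (hε : 0 < ε) (δ : ℝ) (hδ : 0 < δ) :
    ∀ᶠ n in atTop, ∀ F : Finset X,
      (∀ x ∈ F, ∀ y ∈ F, x ≠ y → ∃ i < n, ε ≤ dist (T^[a i] x) (T^[a i] y)) →
      (F.card : ℝ) ≤ Real.exp (δ * n) := by
  classical
  obtain ⟨I, hI, ε', hε', hclose⟩ := dist_small hε
  obtain ⟨N, A, B, hcover⟩ := cover (show 0 < ε' / 3 by positivity)
  obtain ⟨H, _, _, u, v, huv⟩ := exists_hilbert
  obtain ⟨C, hC⟩ : ∃ C : ℝ, C = (A + B + 2) * (2 * I + 1) ^ (N + 2) := ⟨_, rfl⟩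
  have hC0 : 0 < C := by rw [hC]; positivity
  have hev := (isLittleO_pow_exp_pos_mul_atTop (k := N + 2) hδ).bound (show 0 < 1 / C by positivity)
  have hev' := tendsto_natCast_atTop_atTop.eventually hev
  filter_upwards [hev', eventually_ge_atTop 1] with n hn hn1 F hF
  have : Nonempty (Fin n × Fin I) := ⟨(⟨0, hn1⟩, ⟨0, hI⟩)⟩
  obtain ⟨code, hcode⟩ := hcover (Fin n × Fin I) H (fun p => u (a p.1 + p.2))
  have hap : ∀ x : X, ∃ k, ∀ p : Fin n × Fin I, |co x.1 (a p.1 + p.2) - f (k + (a p.1 + p.2))| < ε' / 3 := by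
    intro x
    obtain ⟨k, hk⟩ := approx x (Finset.univ.image fun p : Fin n × Fin I => a p.1 + p.2)
      (show 0 < ε' / 3 by positivity)
    exact ⟨k, fun p => hk _ (Finset.mem_image_of_mem _ (Finset.mem_univ p))⟩
  choose kk hkk using hap
  have hinj : Set.InjOn (fun x => code (v (kk x))) (F : Set X) := by
    intro x hx y hy hxy
    by_contra hne
    obtain ⟨i, hi, hd⟩ := hF x hx y hy hne
    apply absurd hd
    rw [not_le]
    apply hclose
    intro l hl
    rw [co_iter, co_iter]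
    have h1 := hcode _ _ hxy (⟨i, hi⟩, ⟨l, hl⟩)
    simp only at h1
    rw [huv, huv] at h1
    have h2 := hkk x (⟨i, hi⟩, ⟨l, hl⟩)
    have h3 := hkk y (⟨i, hi⟩, ⟨l, hl⟩)
    simp only at h2 h3
    change |f (kk x + (a i + l)) - f (kk y + (a i + l))| ≤ ε' / 3 at h1
    rw [abs_lt] at h2 h3 ⊢
    rw [abs_le] at h1
    constructor <;> linarith
  have hcard : F.card ≤ Fintype.card (Code (Fin n × Fin I) N A B) := by
    rw [← Finset.card_image_of_injOn hinj]
    exact Finset.card_le_univ _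
  have hcard2 := hcard.trans (card_code _ _ _ _)
  have hn0 : (1 : ℝ) ≤ n := by exact_mod_cast hn1
  have h5 : (F.card : ℝ) ≤ C * (n : ℝ) ^ (N + 2) := by
    have h6 : (F.card : ℝ) ≤ (A + B + 2) * (2 * (n * I) + 1) ^ (N + 2) := by
      have : ((F.card : ℕ) : ℝ) ≤ (((A + B + 2) * (2 * Fintype.card (Fin n × Fin I) + 1) ^ (N + 2) : ℕ) : ℝ) := by
        exact_mod_cast hcard2
      simpa using this
    refine h6.trans ?_
    rw [hC, mul_assoc, ← mul_pow]
    gcongr
    nlinarith [show (0 : ℝ) ≤ I by positivity]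
  rw [Real.norm_of_nonneg (by positivity), Real.norm_of_nonneg (by positivity)] at hn
  calc (F.card : ℝ) ≤ C * (n : ℝ) ^ (N + 2) := h5
    _ ≤ C * (1 / C * Real.exp (δ * n)) := by gcongr
    _ = Real.exp (δ * n) := by field_simp

/-- the constant sequence `1` -/
def one : Y := fun _ => ⟨1, by norm_num⟩

lemma co_one (i : ℕ) : co one i = 1 := rfl

/-- times at which the orbit is close to `one` -/
noncomputable def tt (K : ℕ) : ℕ := q (2 * K + 1) / 2

lemma f_tt (i : ℕ) : Tendsto (fun K => f (tt K + i)) atTop (𝓝 1) := by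
  have h1 : Tendsto (fun K : ℕ => 2 * K + 1) atTop atTop :=
    tendsto_atTop_mono (fun K => by simp only [id]; omega) tendsto_id
  have h2 := eta_tendsto.comp h1
  have h3 := (q_tendsto.comp h1).eventually_ge_atTop (4 * i)
  rw [tendsto_iff_dist_tendsto_zero]
  refine squeeze_zero' (Eventually.of_forall fun K => dist_nonneg) ?_ h2
  filter_upwards [h3] with K hK
  simp only [Function.comp] at hK ⊢
  unfold f
  obtain ⟨m, hm⟩ := four_dvd (2 * K + 1)
  have h4 := G_mid (j := tt K + i) (K := 2 * K + 1) (by unfold tt; omega) (by unfold tt; omega)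
  rw [show 2 * K + 1 + 1 = 2 * (K + 1) by ring, pow_mul] at h4
  rw [Real.dist_eq]
  simpa using h4

lemma one_mem : one ∈ closure (Set.range O) := by
  have h : Tendsto (fun K => O (tt K)) atTop (𝓝 one) := by
    apply tendsto_pi_nhds (A := fun _ : ℕ => Set.Icc (-1 : ℝ) 1) |>.2
    intro i
    rw [tendsto_subtype_rng]
    exact f_tt i
  exact mem_closure_of_tendsto h (Eventually.of_forall fun K => ⟨_, rfl⟩)

/-- the fixed point -/
def p : X := ⟨one, one_mem⟩

theorem not_mean_equicontinuous (δ : ℝ) (hδ : 0 < δ) : ∃ x y : X, dist x y < δ ∧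
    ¬ ∀ᶠ n : ℕ in atTop, (∑ i ∈ range n, dist (T^[i] x) (T^[i] y)) / (n : ℝ) < 1 / 4 := by
  have h1 : Tendsto (fun K => OX (tt K)) atTop (𝓝 p) := tendsto_OX f_tt
  obtain ⟨K₀, hK₀⟩ := (h1.eventually (Metric.ball_mem_nhds p hδ)).exists
  refine ⟨p, OX (tt K₀), by rw [dist_comm]; exact hK₀, fun hev => ?_⟩
  obtain ⟨t, ht⟩ : ∃ t, t = tt K₀ := ⟨_, rfl⟩
  rw [← ht] at hev
  have h2 : Tendsto (fun K : ℕ => 2 * K) atTop atTop := tendsto_atTop_mono (fun K => by simp only [id]; omega) tendsto_id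
  have h3 := (eta_tendsto.comp h2).eventually (gt_mem_nhds (show (0 : ℝ) < 1 by norm_num))
  have h4 := (q_tendsto.comp h2).eventually hev
  have h5 := (q_tendsto.comp h2).eventually_ge_atTop (4 * t)
  obtain ⟨K, hK1, hK2, hK3⟩ := (h3.and (h4.and h5)).exists
  simp only [Function.comp] at hK1 hK2 hK3
  obtain ⟨m, hm⟩ := four_dvd (2 * K)
  have hm0 : 0 < m := by
    have := q_pos (2 * K)
    omega
  -- the middle part
  have h6 : ∀ i, m ≤ t + i → t + i ≤ 3 * m → 1 ≤ dist (T^[i] p) (T^[i] (OX t)) := by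
    intro i hi1 hi2
    have h7 := G_mid (j := t + i) (K := 2 * K) (by omega) (by omega)
    rw [pow_succ, pow_mul] at h7
    norm_num at h7
    have h8 : f (t + i) ≤ 0 := by
      have := (abs_le.1 h7).2
      change G (psi (t + i)) ≤ 0
      linarith
    have h9 := min_le_dist (T^[i] p).1 (T^[i] (OX t)).1
    rw [co_iter, co_iter] at h9
    have e1 : co p.1 (i + 0) = 1 := rfl
    have e2 : co (OX t).1 (i + 0) = f (t + i) := rfl
    rw [e1, e2, abs_of_nonneg (by linarith), min_eq_left (by linarith)] at h9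
    exact h9
  have h7 : (m : ℝ) ≤ ∑ i ∈ range (q (2 * K)), dist (T^[i] p) (T^[i] (OX t)) := by
    calc (m : ℝ) = ∑ i ∈ Finset.Ico m (2 * m), (1 : ℝ) := by
          rw [sum_const, Nat.card_Ico, nsmul_eq_mul, mul_one]
          congr 1
          omega
      _ ≤ ∑ i ∈ Finset.Ico m (2 * m), dist (T^[i] p) (T^[i] (OX t)) := by
          apply sum_le_sum
          intro i hi
          rw [Finset.mem_Ico] at hi
          exact h6 i (by omega) (by omega)
      _ ≤ _ := by
          apply sum_le_sum_of_subset_of_nonneg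
          · intro i hi
            rw [Finset.mem_Ico] at hi
            rw [mem_range]
            omega
          · intro i _ _
            exact dist_nonneg
  rw [hm] at hK2 h7
  have hm' : (0 : ℝ) < m := by exact_mod_cast hm0
  rw [div_lt_iff₀ (by positivity)] at hK2
  push_cast at hK2
  linarith

end Pool.Agent.Seat74.Null
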