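import Mathlib

/-!
Covering lemma: slowly varying functions of the distance in a Hilbert space have polynomial
covering numbers on finite sets.
-/

set_option autoImplicit false

namespace Pool.Agent.Seat74.Null

open Filter Topology

/-- `L(t) = log (1 + log (1 + t))` -/
noncomputable def L (t : ℝ) : ℝ := Real.log (1 + Real.log (1 + t))

/-- `G(t) = cos (L t)` -/
noncomputable def G (t : ℝ) : ℝ := Real.cos (L t)

lemma log_nonneg' {x : ℝ} (hx : 0 ≤ x) : 0 ≤ Real.log (1 + x) := Real.log_nonneg (by linarith)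

lemma L_mono {x y : ℝ} (hx : 0 ≤ x) (hxy : x ≤ y) : L x ≤ L y := by
  have h := log_nonneg' hx
  exact Real.log_le_log (by linarith) (by linarith [Real.log_le_log (by linarith : 0 < 1 + x) (by linarith : 1 + x ≤ 1 + y)])

lemma L_nonneg {x : ℝ} (hx : 0 ≤ x) : 0 ≤ L x := log_nonneg' (log_nonneg' hx)

lemma log_diff {a b : ℝ} (ha : 1 ≤ a) (hab : a ≤ b) : Real.log b - Real.log a ≤ b - a := by
  have ha0 : 0 < a := by linarith
  rw [← Real.log_div (by linarith) (by linarith)]
  have h1 := Real.log_le_sub_one_of_pos (show 0 < b / a by apply div_pos <;> linarith)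
  have h2 : b / a - 1 ≤ b - a := by
    rw [div_sub_one ha0.ne', div_le_iff₀ ha0]
    nlinarith
  linarith

lemma L_lip' {x y : ℝ} (hx : 0 ≤ x) (hxy : x ≤ y) : L y - L x ≤ y - x := by
  have h1 := log_diff (a := 1 + x) (b := 1 + y) (by linarith) (by linarith)
  have h2 := log_diff (a := 1 + Real.log (1 + x)) (b := 1 + Real.log (1 + y))
    (by linarith [log_nonneg' hx])
    (by linarith [Real.log_le_log (by linarith : 0 < 1 + x) (by linarith : 1 + x ≤ 1 + y)])
  unfold L
  linarith

lemma L_lip {x y : ℝ} (hx : 0 ≤ x) (hy : 0 ≤ y) : |L x - L y| ≤ |x - y| := by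
  rcases le_total x y with h | h
  · rw [abs_sub_comm, abs_sub_comm x y, abs_of_nonneg (by linarith [L_mono hx h]), abs_of_nonneg (by linarith)]
    exact L_lip' hx h
  · rw [abs_of_nonneg (by linarith [L_mono hy h]), abs_of_nonneg (by linarith)]
    exact L_lip' hy h

lemma G_lip {x y : ℝ} (hx : 0 ≤ x) (hy : 0 ≤ y) : |G x - G y| ≤ |x - y| :=
  (Real.abs_cos_sub_cos_le _ _).trans (L_lip hx hy)

lemma L_ratio {x y K : ℝ} (hx : 0 ≤ x) (hy : 0 ≤ y) (hK : 1 ≤ K) (h : y ≤ K * x) :
    L y ≤ L x + Real.log K / (1 + Real.log (1 + x)) := by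
  have h0 := log_nonneg' hx
  have h0y := log_nonneg' hy
  have hK0 := Real.log_nonneg hK
  have h1 : Real.log (1 + y) ≤ Real.log K + Real.log (1 + x) := by
    rw [← Real.log_mul (by linarith) (by linarith)]
    apply Real.log_le_log (by linarith)
    nlinarith
  have hpos : 0 < 1 + Real.log (1 + x) := by linarith
  have h2 : L y ≤ Real.log ((1 + Real.log (1 + x)) * (1 + Real.log K / (1 + Real.log (1 + x)))) := by
    apply Real.log_le_log (by linarith)
    rw [mul_add, mul_one, mul_div_cancel₀ _ hpos.ne']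
    linarith
  rw [Real.log_mul hpos.ne' (by positivity)] at h2
  have h3 := Real.log_le_sub_one_of_pos (show 0 < 1 + Real.log K / (1 + Real.log (1 + x)) by positivity)
  unfold L at h2 ⊢
  linarith

lemma exists_scale {ε : ℝ} (hε : 0 < ε) : ∃ S : ℝ, 1 ≤ S ∧ ∀ x y : ℝ, S ≤ x → x ≤ y → y ≤ 16 * x →
    |G x - G y| ≤ ε := by
  have hlim : Tendsto (fun x : ℝ => Real.log 16 / (1 + Real.log (1 + x))) atTop (𝓝 0) := by
    apply Tendsto.const_div_atTop
    apply tendsto_atTop_add_const_left
    exact Real.tendsto_log_atTop.comp (tendsto_atTop_add_const_left _ _ tendsto_id)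
  obtain ⟨S, hS⟩ := eventually_atTop.1 (hlim.eventually (gt_mem_nhds hε))
  refine ⟨max S 1, le_max_right _ _, fun x y hx hxy hy => ?_⟩
  have hx1 : 1 ≤ x := (le_max_right _ _).trans hx
  have h1 := L_ratio (K := 16) (by linarith : 0 ≤ x) (by linarith : 0 ≤ y) (by norm_num) hy
  have h2 := hS x ((le_max_left _ _).trans hx)
  have h3 := L_mono (by linarith : 0 ≤ x) hxy
  refine (Real.abs_cos_sub_cos_le _ _).trans ?_
  rw [abs_sub_comm, abs_of_nonneg (by linarith)]
  linarith

section greedy

variable {H J : Type*} [NormedAddCommGroup H] [InnerProductSpace ℝ H]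

/-- one term of the code -/
noncomputable def term (u : J → H) (η : ℝ) : Option (J × Bool) → H
  | none => 0
  | some (j, b) => (if b then η else -η) • u j

/-- the vector given by a code -/
noncomputable def W {N : ℕ} (u : J → H) (η : ℝ) (c : Fin N → Option (J × Bool)) : H :=
  ∑ i, term u η (c i)

lemma greedy (u : J → H) {η ε : ℝ} (hη : 0 < η) (hε : 0 < ε) (hu : ∀ j, η * ‖u j‖ ^ 2 ≤ ε) :
    ∀ (N : ℕ) (v : H), ‖v‖ ^ 2 ≤ N * (η * ε) →
      ∃ c : Fin N → Option (J × Bool), ∀ j, |inner ℝ (u j) (v - W u η c)| ≤ ε := by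
  intro N
  induction N with
  | zero =>
    intro v hv
    have hv0 : v = 0 := by
      rw [← norm_eq_zero]
      have : ‖v‖ ^ 2 ≤ 0 := by simpa using hv
      nlinarith [norm_nonneg v]
    refine ⟨fun _ => none, fun j => ?_⟩
    simp [W, hv0, hε.le]
  | succ N ih =>
    intro v hv
    by_cases h : ∀ j, |inner ℝ (u j) v| ≤ ε
    · refine ⟨fun _ => none, fun j => ?_⟩
      simpa [W, term] using h j
    · push Not at h
      obtain ⟨j, hj⟩ := h
      obtain ⟨b, hb⟩ : ∃ b : Bool, ‖v - (if b then η else -η) • u j‖ ^ 2 ≤ ‖v‖ ^ 2 - η * ε := by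
        rcases le_or_gt 0 (inner ℝ (u j) v) with h0 | h0
        · refine ⟨true, ?_⟩
          rw [abs_of_nonneg h0] at hj
          rw [if_pos rfl, norm_sub_sq_real, inner_smul_right, norm_smul, Real.norm_of_nonneg hη.le, real_inner_comm, mul_pow]
          have := hu j
          nlinarith
        · refine ⟨false, ?_⟩
          rw [abs_of_neg h0] at hj
          rw [if_neg (by simp), norm_sub_sq_real, inner_smul_right, norm_smul, norm_neg, Real.norm_of_nonneg hη.le, real_inner_comm, mul_pow]
          have := hu j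
          nlinarith
      obtain ⟨c, hc⟩ := ih (v - (if b then η else -η) • u j) (by push_cast at hv; linarith)
      refine ⟨Fin.cons (some (j, b)) c, fun i => ?_⟩
      have := hc i
      have e : v - W u η (Fin.cons (some (j, b)) c : Fin (N + 1) → Option (J × Bool)) =
          v - (if b then η else -η) • u j - W u η c := by
        unfold W
        rw [Fin.sum_univ_succ]
        simp [term]
        abel
      rw [e]
      exact this

end greedy

/-- rounding -/
noncomputable def bin (A : ℕ) (x : ℝ) : Fin (A + 1) := ⟨min ⌊x⌋₊ A, by omega⟩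

lemma bin_close {A : ℕ} {x y : ℝ} (hx : 0 ≤ x) (hy : 0 ≤ y) (hxA : x ≤ A) (hyA : y ≤ A)
    (h : bin A x = bin A y) : |x - y| ≤ 1 := by
  have h1 : ⌊x⌋₊ ≤ A := Nat.floor_le_of_le hxA
  have h2 : ⌊y⌋₊ ≤ A := Nat.floor_le_of_le hyA
  have h3 : ⌊x⌋₊ = ⌊y⌋₊ := by
    have := congrArg Fin.val h
    simp only [bin] at this
    omega
  have h4 := Nat.floor_le hx
  have h5 := Nat.floor_le hy
  have h6 := Nat.lt_floor_add_one x
  have h7 := Nat.lt_floor_add_one y
  rw [h3] at h4 h6
  rw [abs_le]
  constructor <;> linarith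

/-- the codes -/
abbrev Code (J : Type) [Fintype J] (N A B : ℕ) : Type :=
  J × ((Fin (Fintype.card J + 1) × Fin (A + 1)) ⊕ ((Fin N → Option (J × Bool)) × Fin (B + 1)))

lemma card_code (J : Type) [Fintype J] (N A B : ℕ) :
    Fintype.card (Code J N A B) ≤ (A + B + 2) * (2 * Fintype.card J + 1) ^ (N + 2) := by
  simp only [Code, Fintype.card_prod, Fintype.card_sum, Fintype.card_fin, Fintype.card_fun,
    Fintype.card_option, Fintype.card_bool]
  set m := Fintype.card J
  have h1 : 1 ≤ (m * 2 + 1) ^ N := Nat.one_le_pow _ _ (by omega)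
  have h2 : (m + 1) * (A + 1) + (m * 2 + 1) ^ N * (B + 1) ≤ (A + B + 2) * ((2 * m + 1) * (m * 2 + 1) ^ N) := by
    have h3 : (m + 1) * (A + 1) ≤ (A + 1) * ((2 * m + 1) * (m * 2 + 1) ^ N) := by
      rw [mul_comm]
      apply Nat.mul_le_mul_left
      calc m + 1 ≤ (2 * m + 1) * 1 := by omega
        _ ≤ _ := Nat.mul_le_mul_left _ h1
    have h4 : (m * 2 + 1) ^ N * (B + 1) ≤ (B + 1) * ((2 * m + 1) * (m * 2 + 1) ^ N) := by
      rw [mul_comm]
      apply Nat.mul_le_mul_left
      apply Nat.le_mul_of_pos_left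
      omega
    calc _ ≤ _ := Nat.add_le_add h3 h4
      _ = _ := by ring
  calc m * ((m + 1) * (A + 1) + (m * 2 + 1) ^ N * (B + 1)) ≤
      (2 * m + 1) * ((A + B + 2) * ((2 * m + 1) * (m * 2 + 1) ^ N)) := Nat.mul_le_mul (by omega) h2
    _ = _ := by rw [mul_comm m 2]; ring

/-- **The covering lemma.** -/
theorem cover {ε : ℝ} (hε : 0 < ε) : ∃ N A B : ℕ, ∀ (J : Type) [Fintype J] [Nonempty J] (H : Type)
    [NormedAddCommGroup H] [InnerProductSpace ℝ H] (u : J → H),
    ∃ code : H → Code J N A B, ∀ v v' : H, code v = code v' →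
      ∀ j, |G (‖u j - v‖ ^ 2) - G (‖u j - v'‖ ^ 2)| ≤ ε := by
  classical
  obtain ⟨S, hS1, hS⟩ := exists_scale (show 0 < ε / 8 by positivity)
  -- threshold for the distances: `R = 2 S`, so that `R ^ 2 / 4 ≥ S`
  obtain ⟨R, hR⟩ : ∃ R : ℝ, R = 2 * S := ⟨_, rfl⟩
  have hR0 : 0 < R := by linarith
  have hRS : S ≤ R ^ 2 / 4 := by rw [hR]; nlinarith
  obtain ⟨η, hη⟩ : ∃ η : ℝ, η = (ε / 16) / (2 * R) ^ 2 := ⟨_, rfl⟩
  have hη0 : 0 < η := by rw [hη]; positivity
  obtain ⟨N, hN⟩ := exists_nat_ge (R ^ 2 / (η * (ε / 16)))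
  obtain ⟨A, hA⟩ := exists_nat_ge (2 / (ε / 8))
  obtain ⟨B, hB⟩ := exists_nat_ge (R ^ 2 / (ε / 8))
  refine ⟨N, A, B, ?_⟩
  intro J _ _ H _ _ u
  -- nearest point
  have hmin : ∀ v : H, ∃ i, ∀ j, ‖u i - v‖ ≤ ‖u j - v‖ := fun v =>
    Finite.exists_min fun j => ‖u j - v‖
  choose i0 hi0 using hmin
  -- the truncated differences
  obtain ⟨du, hdu⟩ : ∃ du : J → J → H, ∀ i j, du i j = if ‖u j - u i‖ < 2 * R then u j - u i else 0 :=
    ⟨_, fun _ _ => rfl⟩
  have hdun : ∀ i j, ‖du i j‖ ≤ 2 * R := by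
    intro i j
    rw [hdu]
    split_ifs with h
    · exact h.le
    · simp; linarith
  have hgr : ∀ (i : J) (v : H), ‖v - u i‖ ≤ R → ∃ c : Fin N → Option (J × Bool),
      ∀ j, |inner ℝ (du i j) (v - u i - W (du i) η c)| ≤ ε / 16 := by
    intro i v hv
    apply greedy (du i) hη0 (by positivity)
    · intro j
      calc η * ‖du i j‖ ^ 2 ≤ η * (2 * R) ^ 2 := by
            gcongr
            exact hdun i j
        _ = ε / 16 := by rw [hη]; field_simp
    · have h1 : R ^ 2 ≤ N * (η * (ε / 16)) := by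
        rwa [div_le_iff₀ (by positivity)] at hN
      calc ‖v - u i‖ ^ 2 ≤ R ^ 2 := by gcongr
        _ ≤ _ := h1
  have hgr' : ∀ (i : J) (v : H), ∃ c : Fin N → Option (J × Bool), ‖v - u i‖ ≤ R →
      ∀ j, |inner ℝ (du i j) (v - u i - W (du i) η c)| ≤ ε / 16 := by
    intro i v
    by_cases h : ‖v - u i‖ ≤ R
    · obtain ⟨c, hc⟩ := hgr i v h
      exact ⟨c, fun _ => hc⟩
    · exact ⟨fun _ => none, fun h' => absurd h' h⟩
  choose c hc using hgr'
  obtain ⟨near, hnear⟩ : ∃ near : J → ℝ → Finset J, ∀ i t, near i t = Finset.univ.filter fun j => ‖u j - u i‖ ≤ t :=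
    ⟨_, fun _ _ => rfl⟩
  have hcard : ∀ i t, (near i t).card < Fintype.card J + 1 := fun i t =>
    Nat.lt_succ_of_le (Finset.card_le_univ _)
  let code : H → Code J N A B := fun v =>
    (i0 v, if ‖u (i0 v) - v‖ < R then Sum.inr (c (i0 v) v, bin B (‖u (i0 v) - v‖ ^ 2 / (ε / 8)))
      else Sum.inl (⟨(near (i0 v) ‖u (i0 v) - v‖).card, hcard _ _⟩,
        bin A ((G (‖u (i0 v) - v‖ ^ 2) + 1) / (ε / 8))))
  refine ⟨code, ?_⟩
  -- distances
  have hup : ∀ v j, ‖u j - v‖ ≤ ‖u j - u (i0 v)‖ + ‖u (i0 v) - v‖ := fun v j =>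
    norm_sub_le_norm_sub_add_norm_sub _ _ _
  have hlow : ∀ v j, ‖u j - u (i0 v)‖ ≤ 2 * ‖u j - v‖ := by
    intro v j
    have h1 : ‖u j - u (i0 v)‖ ≤ ‖u j - v‖ + ‖v - u (i0 v)‖ := norm_sub_le_norm_sub_add_norm_sub _ _ _
    have h2 := hi0 v j
    rw [norm_sub_rev v] at h1
    linarith
  -- large scale approximation
  have hbig : ∀ v j, ∀ M : ℝ, R ≤ M → M ≤ 2 * ‖u j - v‖ → ‖u j - v‖ ≤ 2 * M →
      |G (‖u j - v‖ ^ 2) - G (M ^ 2)| ≤ ε / 4 := by
    intro v j M hM h1 h2
    have hM0 : 0 < M := by linarith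
    have h3 : S ≤ M ^ 2 / 4 := by nlinarith
    have h4 := hS (M ^ 2 / 4) (‖u j - v‖ ^ 2) h3 (by nlinarith [norm_nonneg (u j - v)])
      (by nlinarith [norm_nonneg (u j - v)])
    have h5 := hS (M ^ 2 / 4) (M ^ 2) h3 (by nlinarith) (by nlinarith)
    calc |G (‖u j - v‖ ^ 2) - G (M ^ 2)| =
        |(G (M ^ 2 / 4) - G (M ^ 2)) - (G (M ^ 2 / 4) - G (‖u j - v‖ ^ 2))| := by congr 1; ring
      _ ≤ |G (M ^ 2 / 4) - G (M ^ 2)| + |G (M ^ 2 / 4) - G (‖u j - v‖ ^ 2)| := abs_sub _ _
      _ ≤ ε / 4 := by linarith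
  intro v v' hvv j
  have hi : i0 v = i0 v' := congrArg Prod.fst hvv
  have h2 := congrArg Prod.snd hvv
  simp only [code] at h2
  rw [← hi] at h2
  have hupv' := hup v' j
  have hlowv' := hlow v' j
  rw [← hi] at hupv' hlowv'
  have hupv := hup v j
  have hlowv := hlow v j
  have hmv := hi0 v j
  have hmv' := hi0 v' j
  rw [← hi] at hmv'
  have hcv := hc (i0 v) v
  have hcv' := hc (i0 v) v'
  generalize i0 v = i at *
  by_cases hs : ‖u i - v‖ < R
  · rw [if_pos hs] at h2
    by_cases hs' : ‖u i - v'‖ < R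
    · rw [if_pos hs'] at h2
      have h3 := Sum.inr_injective h2
      have hcc : c i v = c i v' := congrArg Prod.fst h3
      have hbin := congrArg Prod.snd h3
      simp only at hbin
      by_cases hj : ‖u j - u i‖ < 2 * R
      · -- bounded scale
        have h4 := hcv (by rw [norm_sub_rev]; exact hs.le) j
        have h5 := hcv' (by rw [norm_sub_rev]; exact hs'.le) j
        rw [← hcc] at h5
        have hduj : du i j = u j - u i := by rw [hdu, if_pos hj]
        rw [hduj] at h4 h5
        have h6 : |inner ℝ (u j - u i) (v - u i) - inner ℝ (u j - u i) (v' - u i)| ≤ ε / 8 := by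
          have e : inner ℝ (u j - u i) (v - u i) - inner ℝ (u j - u i) (v' - u i) =
              inner ℝ (u j - u i) (v - u i - W (du i) η (c i v)) -
              inner ℝ (u j - u i) (v' - u i - W (du i) η (c i v)) := by
            rw [← inner_sub_right, ← inner_sub_right]
            congr 1
            abel
          rw [e]
          refine (abs_sub _ _).trans ?_
          linarith
        have h7 : |‖u i - v‖ ^ 2 - ‖u i - v'‖ ^ 2| ≤ ε / 8 := by
          have hb := bin_close (by positivity) (by positivity)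
            (le_trans (by gcongr) hB) (le_trans (by gcongr) hB) hbin
          rw [← sub_div, abs_div, abs_of_pos (show 0 < ε / 8 by positivity), div_le_one (by positivity)] at hb
          exact hb
        have e : ∀ w : H, ‖u j - w‖ ^ 2 = ‖u j - u i‖ ^ 2 - 2 * inner ℝ (u j - u i) (w - u i) + ‖u i - w‖ ^ 2 := by
          intro w
          rw [show u j - w = (u j - u i) - (w - u i) by abel, norm_sub_sq_real, norm_sub_rev w]
        refine (G_lip (by positivity) (by positivity)).trans ?_
        rw [e v, e v']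
        have h8 := abs_le.1 h6
        have h9 := abs_le.1 h7
        rw [abs_le]
        constructor <;> linarith
      · -- far points
        push Not at hj
        have h4 := hbig v j ‖u j - u i‖ (by linarith) hlowv (by linarith)
        have h5 := hbig v' j ‖u j - u i‖ (by linarith) hlowv' (by linarith)
        have h8 := abs_le.1 h4
        have h9 := abs_le.1 h5
        rw [abs_le]
        constructor <;> linarith
    · rw [if_neg hs'] at h2
      exact absurd h2 (by simp)
  · rw [if_neg hs] at h2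
    by_cases hs' : ‖u i - v'‖ < R
    · rw [if_pos hs'] at h2
      exact absurd h2 (by simp)
    · rw [if_neg hs'] at h2
      push Not at hs hs'
      have h3 := Sum.inl_injective h2
      have hca : (near i ‖u i - v‖).card = (near i ‖u i - v'‖).card := by
        have := congrArg Prod.fst h3
        simpa using this
      have hbin := congrArg Prod.snd h3
      simp only at hbin
      have hnn : near i ‖u i - v‖ = near i ‖u i - v'‖ := by
        rw [hnear, hnear] at hca ⊢
        rcases le_total ‖u i - v‖ ‖u i - v'‖ with h | h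
        · exact Finset.eq_of_subset_of_card_le
            (Finset.monotone_filter_right _ fun x _ hx => hx.trans h) hca.ge
        · exact (Finset.eq_of_subset_of_card_le
            (Finset.monotone_filter_right _ fun x _ hx => hx.trans h) hca.le).symm
      have h7 : |G (‖u i - v‖ ^ 2) - G (‖u i - v'‖ ^ 2)| ≤ ε / 8 := by
        have g1 : ∀ x, -1 ≤ G x := fun x => Real.neg_one_le_cos _
        have g2 : ∀ x, G x ≤ 1 := fun x => Real.cos_le_one _
        have hb := bin_close (div_nonneg (by linarith [g1 (‖u i - v‖ ^ 2)]) (by positivity))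
          (div_nonneg (by linarith [g1 (‖u i - v'‖ ^ 2)]) (by positivity))
          (le_trans (by gcongr; linarith [g2 (‖u i - v‖ ^ 2)]) hA)
          (le_trans (by gcongr; linarith [g2 (‖u i - v'‖ ^ 2)]) hA) hbin
        rw [← sub_div, abs_div, abs_of_pos (show 0 < ε / 8 by positivity), div_le_one (by positivity)] at hb
        rwa [add_sub_add_right_eq_sub] at hb
      by_cases hj : j ∈ near i ‖u i - v‖
      · have hj' := hj
        rw [hnn] at hj'
        rw [hnear, Finset.mem_filter] at hj hj'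
        have h4 := hbig v j ‖u i - v‖ hs (by linarith [norm_nonneg (u j - v)]) (by linarith [hj.2])
        have h5 := hbig v' j ‖u i - v'‖ hs' (by linarith [norm_nonneg (u j - v')]) (by linarith [hj'.2])
        have h8 := abs_le.1 h4
        have h9 := abs_le.1 h5
        have h10 := abs_le.1 h7
        rw [abs_le]
        constructor <;> linarith
      · have hj' := hj
        rw [hnn] at hj'
        rw [hnear, Finset.mem_filter] at hj hj'
        push Not at hj hj'
        have hj1 := hj (Finset.mem_univ _)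
        have hj2 := hj' (Finset.mem_univ _)
        have h4 := hbig v j ‖u j - u i‖ (by linarith) hlowv (by linarith)
        have h5 := hbig v' j ‖u j - u i‖ (by linarith) hlowv' (by linarith)
        have h8 := abs_le.1 h4
        have h9 := abs_le.1 h5
        rw [abs_le]
        constructor <;> linarith

end Pool.Agent.Seat74.Null
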