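import Pool.Agent.Seat74.Null.Cover

/-!
The slowly varying function `ψ(n) = ∑ w_k |1 - e(n/q_k)|²`.
-/

set_option autoImplicit false

namespace Pool.Agent.Seat74.Null

open Filter Topology Finset

/-- the weights; `L (w k) = π (k+1)` -/
noncomputable def w (k : ℕ) : ℝ := Real.exp (Real.exp (Real.pi * (k + 1)) - 1) - 1

/-- the quotients of the periods -/
noncomputable def Mq (k : ℕ) : ℕ := 2 ^ (k + 3) * ⌈w k⌉₊

/-- the periods -/
noncomputable def q : ℕ → ℕ
  | 0 => Mq 0
  | k + 1 => q k * Mq (k + 1)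

/-- the terms of `ψ` -/
noncomputable def trm (k n : ℕ) : ℝ := w k * (2 - 2 * Real.cos (2 * Real.pi * n / q k))

/-- `ψ(n)` -/
noncomputable def psi (n : ℕ) : ℝ := ∑' k, trm k n

lemma exp_ge (k : ℕ) : 4 ≤ Real.exp (Real.pi * (k + 1)) := by
  have h1 := Real.add_one_le_exp (Real.pi * (k + 1))
  have h2 := Real.pi_gt_three
  have h3 : (0 : ℝ) ≤ k := by positivity
  nlinarith

lemma w_ge (k : ℕ) : 1 ≤ w k := by
  have h1 := exp_ge k
  have h2 := Real.add_one_le_exp (Real.exp (Real.pi * (k + 1)) - 1)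
  unfold w
  linarith

lemma w_mono : Monotone w := by
  intro i j h
  unfold w
  have : (i : ℝ) ≤ j := by exact_mod_cast h
  have hpi := Real.pi_pos
  gcongr

lemma log_w (k : ℕ) : 1 + Real.log (1 + w k) = Real.exp (Real.pi * (k + 1)) := by
  unfold w
  rw [add_sub_cancel, Real.log_exp]
  ring

lemma L_w (k : ℕ) : L (w k) = Real.pi * (k + 1) := by
  unfold L
  rw [log_w, Real.log_exp]

lemma Mq_ge (k : ℕ) : 2 ^ (k + 3) * w k ≤ Mq k := by
  unfold Mq
  push_cast
  gcongr
  exact Nat.le_ceil _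

lemma Mq_pos (k : ℕ) : 0 < Mq k := by
  have h1 := Mq_ge k
  have h2 := w_ge k
  have h3 : (0 : ℝ) < Mq k := lt_of_lt_of_le (by positivity) h1
  exact_mod_cast h3

lemma q_pos (k : ℕ) : 0 < q k := by
  induction k with
  | zero => exact Mq_pos 0
  | succ k ih => exact Nat.mul_pos ih (Mq_pos _)

lemma Mq_dvd_q (k : ℕ) : Mq k ∣ q k := by
  cases k with
  | zero => exact dvd_rfl
  | succ k => exact Dvd.intro_left _ rfl

lemma four_dvd (k : ℕ) : 4 ∣ q k :=
  (Dvd.dvd.mul_right (pow_dvd_pow 2 (show 2 ≤ k + 3 by omega)) _).trans (Mq_dvd_q k)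

lemma q_dvd {i j : ℕ} (h : i ≤ j) : q i ∣ q j := by
  induction j, h using Nat.le_induction with
  | base => exact dvd_rfl
  | succ j _ ih => exact ih.trans (Dvd.intro _ rfl)

lemma q_ge {K k : ℕ} (h : K < k) : q K * Mq k ≤ q k := by
  obtain ⟨m, rfl⟩ : ∃ m, k = m + 1 := ⟨k - 1, by omega⟩
  exact Nat.mul_le_mul_right _ (Nat.le_of_dvd (q_pos _) (q_dvd (by omega)))

lemma q_tendsto : Tendsto q atTop atTop := by
  apply tendsto_atTop_mono (f := fun k => k)
  · intro k
    have h1 : Mq k ≤ q k := Nat.le_of_dvd (q_pos k) (Mq_dvd_q k)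
    have h2 : k ≤ Mq k := by
      have h3 : 1 ≤ ⌈w k⌉₊ := Nat.one_le_ceil_iff.2 (by linarith [w_ge k])
      calc k ≤ 2 ^ k := Nat.lt_two_pow_self.le
        _ ≤ 2 ^ (k + 3) := Nat.pow_le_pow_right (by norm_num) (by omega)
        _ = 2 ^ (k + 3) * 1 := by ring
        _ ≤ _ := Nat.mul_le_mul_left _ h3
    omega
  · exact tendsto_id

lemma trm_nonneg (k n : ℕ) : 0 ≤ trm k n := by
  unfold trm
  have := w_ge k
  have := Real.cos_le_one (2 * Real.pi * n / q k)
  apply mul_nonneg <;> linarith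

lemma trm_le (k n : ℕ) : trm k n ≤ 4 * w k := by
  unfold trm
  have := w_ge k
  have := Real.neg_one_le_cos (2 * Real.pi * n / q k)
  nlinarith

lemma trm_bound {D : ℕ} (k n : ℕ) (hD : 0 < D) (h : D * Mq k ≤ q k) :
    trm k n ≤ ((n : ℝ) / D) ^ 2 * (1 / 4) ^ k := by
  have hw := w_ge k
  have hD' : (0 : ℝ) < D := by exact_mod_cast hD
  have hpi := Real.pi_lt_d2
  have hpi0 := Real.pi_pos
  have h1 := Real.one_sub_sq_div_two_le_cos (x := 2 * Real.pi * n / q k)
  have h2 : trm k n ≤ w k * (2 * Real.pi * n / q k) ^ 2 := by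
    unfold trm
    apply mul_le_mul_of_nonneg_left _ (by linarith)
    linarith
  refine h2.trans ?_
  have h3 : (D : ℝ) * (2 ^ (k + 3) * w k) ≤ q k := by
    calc (D : ℝ) * (2 ^ (k + 3) * w k) ≤ D * Mq k := by
          gcongr
          exact Mq_ge k
      _ ≤ q k := by exact_mod_cast h
  have h4 : 2 * Real.pi * n / q k ≤ 2 * Real.pi * n / (D * (2 ^ (k + 3) * w k)) := by
    gcongr
  calc w k * (2 * Real.pi * n / q k) ^ 2 ≤
      w k * (2 * Real.pi * n / (D * (2 ^ (k + 3) * w k))) ^ 2 := by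
        gcongr
    _ = ((n : ℝ) / D) ^ 2 * (1 / 4) ^ k * (Real.pi ^ 2 / (16 * w k)) := by
        have e1 : (1 / 4 : ℝ) ^ k = 1 / (2 ^ k) ^ 2 := by
          rw [← pow_mul, mul_comm k 2, pow_mul, div_pow, one_pow]
          norm_num
        rw [e1, pow_add (2 : ℝ) k 3]
        field_simp
        ring
    _ ≤ ((n : ℝ) / D) ^ 2 * (1 / 4) ^ k * 1 := by
        gcongr
        rw [div_le_one (by positivity)]
        nlinarith
    _ = _ := by ring

lemma trm_summable (n : ℕ) : Summable fun k => trm k n := by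
  refine Summable.of_nonneg_of_le (fun k => trm_nonneg k n) (fun k => trm_bound (D := 1) k n one_pos ?_) ?_
  · rw [one_mul]
    exact Nat.le_of_dvd (q_pos k) (Mq_dvd_q k)
  · exact (summable_geometric_of_lt_one (by norm_num) (by norm_num)).mul_left _

lemma psi_eq (n K : ℕ) : psi n = ∑ k ∈ range (K + 1), trm k n + ∑' i, trm (i + (K + 1)) n :=
  ((trm_summable n).sum_add_tsum_nat_add (K + 1)).symm

lemma tail_nonneg (n K : ℕ) : 0 ≤ ∑' i, trm (i + (K + 1)) n := tsum_nonneg fun _ => trm_nonneg _ _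

lemma tail_le (n K : ℕ) : ∑' i, trm (i + (K + 1)) n ≤ ((n : ℝ) / q K) ^ 2 * (1 / 4) ^ K := by
  have h1 : ∀ i, trm (i + (K + 1)) n ≤ (((n : ℝ) / q K) ^ 2 * (1 / 4) ^ (K + 1)) * (1 / 4) ^ i := by
    intro i
    refine (trm_bound (i + (K + 1)) n (q_pos K) (q_ge (by omega))).trans_eq ?_
    rw [pow_add (1 / 4 : ℝ) i (K + 1)]
    ring
  have hs : Summable fun i : ℕ => (((n : ℝ) / q K) ^ 2 * (1 / 4) ^ (K + 1)) * (1 / 4 : ℝ) ^ i :=
    (summable_geometric_of_lt_one (by norm_num) (by norm_num)).mul_left _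
  have h2 := Summable.tsum_le_tsum h1
    (hs.of_nonneg_of_le (fun i => trm_nonneg _ _) h1) hs
  refine h2.trans ?_
  rw [tsum_mul_left, tsum_geometric_of_lt_one (by norm_num) (by norm_num), pow_succ (1 / 4 : ℝ) K]
  have : 0 ≤ ((n : ℝ) / q K) ^ 2 * (1 / 4) ^ K := by positivity
  nlinarith

lemma psi_nonneg (n : ℕ) : 0 ≤ psi n := tsum_nonneg fun k => trm_nonneg k n

lemma trm_periodic {k K : ℕ} (h : k ≤ K) (n : ℕ) : trm k (n + q K) = trm k n := by
  obtain ⟨m, hm⟩ := q_dvd h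
  unfold trm
  congr 3
  have hq : (q k : ℝ) ≠ 0 := by exact_mod_cast (q_pos k).ne'
  rw [hm]
  push_cast
  rw [show 2 * Real.pi * ((n : ℝ) + q k * m) / q k = 2 * Real.pi * n / q k + m * (2 * Real.pi) by
    field_simp]
  exact Real.cos_add_nat_mul_two_pi _ _

lemma psi_recur (n K : ℕ) : |psi (n + q K) - psi n| ≤ ((n : ℝ) + 1) ^ 2 * (1 / 4) ^ K := by
  have hq : (1 : ℝ) ≤ q K := by exact_mod_cast q_pos K
  have h0 : ∑ k ∈ range (K + 1), trm k (n + q K) = ∑ k ∈ range (K + 1), trm k n := by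
    apply sum_congr rfl
    intro k hk
    rw [mem_range] at hk
    exact trm_periodic (by omega) n
  have h1 := tail_le (n + q K) K
  have h2 := tail_le n K
  have h3 := tail_nonneg (n + q K) K
  have h4 := tail_nonneg n K
  have h5 : (((n + q K : ℕ) : ℝ) / q K) ^ 2 ≤ ((n : ℝ) + 1) ^ 2 := by
    gcongr
    push_cast
    rw [div_le_iff₀ (by linarith)]
    have : (0 : ℝ) ≤ n := by positivity
    nlinarith
  have h6 : ((n : ℝ) / q K) ^ 2 ≤ ((n : ℝ) + 1) ^ 2 := by
    gcongr
    rw [div_le_iff₀ (by linarith)]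
    have : (0 : ℝ) ≤ n := by positivity
    nlinarith
  have h7 : (((n + q K : ℕ) : ℝ) / q K) ^ 2 * (1 / 4) ^ K ≤ ((n : ℝ) + 1) ^ 2 * (1 / 4) ^ K := by
    gcongr
  have h8 : ((n : ℝ) / q K) ^ 2 * (1 / 4) ^ K ≤ ((n : ℝ) + 1) ^ 2 * (1 / 4) ^ K := by
    gcongr
  rw [psi_eq (n + q K) K, psi_eq n K, h0, abs_le]
  constructor <;> linarith

lemma psi_mid {j K : ℕ} (h1 : q K ≤ 4 * j) (h2 : 4 * j ≤ 3 * q K) :
    w K ≤ psi j ∧ psi j ≤ (4 * K + 5) * w K := by
  have hq : (0 : ℝ) < q K := by exact_mod_cast q_pos K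
  have h1' : (q K : ℝ) ≤ 4 * j := by exact_mod_cast h1
  have h2' : (4 : ℝ) * j ≤ 3 * q K := by exact_mod_cast h2
  have hpi := Real.pi_pos
  have hw := w_ge K
  constructor
  · have h3 : trm K j ≤ psi j := (trm_summable j).le_tsum K fun i _ => trm_nonneg _ _
    refine le_trans ?_ h3
    unfold trm
    have hc : Real.cos (2 * Real.pi * j / q K) ≤ 0 := by
      apply Real.cos_nonpos_of_pi_div_two_le_of_le
      · rw [le_div_iff₀ hq]
        nlinarith
      · rw [div_le_iff₀ hq]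
        nlinarith
    nlinarith
  · rw [psi_eq j K]
    have h3 : ∑ k ∈ range (K + 1), trm k j ≤ (K + 1) * (4 * w K) := by
      calc ∑ k ∈ range (K + 1), trm k j ≤ ∑ k ∈ range (K + 1), 4 * w K := by
            apply sum_le_sum
            intro k hk
            rw [mem_range] at hk
            have := w_mono (show k ≤ K by omega)
            linarith [trm_le k j]
        _ = _ := by simp
    have h4 := tail_le j K
    have h5 : ((j : ℝ) / q K) ^ 2 * (1 / 4) ^ K ≤ 1 := by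
      apply mul_le_one₀
      · apply pow_le_one₀ (by positivity)
        rw [div_le_one hq]
        linarith
      · positivity
      · apply pow_le_one₀ <;> norm_num
    nlinarith

/-- the error -/
noncomputable def eta (K : ℕ) : ℝ := Real.log (4 * K + 5) / Real.exp (Real.pi * (K + 1))

lemma eta_tendsto : Tendsto eta atTop (𝓝 0) := by
  have h : ∀ K : ℕ, eta K ≤ 5 / ((K : ℝ) + 1) := by
    intro K
    unfold eta
    have h0 : (0 : ℝ) ≤ K := by positivity
    have h1 : Real.log (4 * K + 5) ≤ 4 * K + 5 := by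
      have := Real.log_le_sub_one_of_pos (show (0 : ℝ) < 4 * K + 5 by positivity)
      linarith
    have h2 : ((K : ℝ) + 1) ^ 2 ≤ Real.exp (Real.pi * (K + 1)) := by
      have h3 := Real.add_one_le_exp ((K : ℝ) + 1)
      have hpi := Real.pi_gt_three
      calc ((K : ℝ) + 1) ^ 2 ≤ Real.exp (K + 1) ^ 2 := by gcongr; linarith
        _ = Real.exp (2 * (K + 1)) := by rw [← Real.exp_nat_mul]; norm_num
        _ ≤ _ := by
          apply Real.exp_le_exp.2
          nlinarith
    calc Real.log (4 * K + 5) / Real.exp (Real.pi * (K + 1)) ≤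
        (5 * (K + 1)) / ((K : ℝ) + 1) ^ 2 := by
          gcongr
          linarith
      _ = _ := by field_simp
  have h' : ∀ K : ℕ, 0 ≤ eta K := by
    intro K
    unfold eta
    apply div_nonneg
    · apply Real.log_nonneg
      have : (0 : ℝ) ≤ K := by positivity
      linarith
    · positivity
  refine squeeze_zero h' h ?_
  apply Tendsto.const_div_atTop
  exact tendsto_atTop_add_const_right _ _ tendsto_natCast_atTop_atTop

lemma G_mid {j K : ℕ} (h1 : q K ≤ 4 * j) (h2 : 4 * j ≤ 3 * q K) :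
    |G (psi j) - (-1) ^ (K + 1)| ≤ eta K := by
  obtain ⟨h3, h4⟩ := psi_mid h1 h2
  have hw := w_ge K
  have h0 : (0 : ℝ) ≤ K := by positivity
  have h5 := L_mono (by linarith) h3
  have h6 := L_ratio (x := w K) (y := psi j) (K := 4 * K + 5) (by linarith) (psi_nonneg j) (by linarith) h4
  rw [log_w] at h6
  have h7 : (-1 : ℝ) ^ (K + 1) = Real.cos (L (w K)) := by
    rw [L_w]
    have := Real.cos_nat_mul_pi (K + 1)
    rw [← this]
    push_cast
    ring_nf
  rw [h7]
  refine (Real.abs_cos_sub_cos_le _ _).trans ?_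
  rw [abs_of_nonneg (by linarith)]
  unfold eta
  linarith

/-! ### The Hilbert space -/

/-- the Hilbert space -/
abbrev HS : Type := lp (fun _ : ℕ => ℂ) 2

lemma normSq_aux (r α β : ℝ) (hr : 0 ≤ r) :
    ‖(⟨√r * (Real.cos α - 1), √r * Real.sin α⟩ : ℂ) - ⟨√r * (Real.cos β - 1), -(√r * Real.sin β)⟩‖ ^ 2 =
      r * (2 - 2 * Real.cos (α + β)) := by
  rw [← Complex.normSq_eq_norm_sq, Complex.normSq_apply]
  simp only [Complex.sub_re, Complex.sub_im]
  rw [Real.cos_add]
  have h1 := Real.sin_sq_add_cos_sq α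
  have h2 := Real.sin_sq_add_cos_sq β
  have h3 := Real.mul_self_sqrt hr
  linear_combination (Real.cos α ^ 2 - 2 * Real.cos α * Real.cos β + Real.cos β ^ 2 + Real.sin α ^ 2 + 2 * Real.sin α * Real.sin β + Real.sin β ^ 2) * h3 + r * h1 + r * h2

lemma exists_hilbert : ∃ (H : Type) (_ : NormedAddCommGroup H) (_ : InnerProductSpace ℝ H) (u v : ℕ → H),
    ∀ j n, ‖u j - v n‖ ^ 2 = psi (n + j) := by
  have hu : ∀ j : ℕ, Memℓp (fun k => (⟨√(w k) * (Real.cos (2 * Real.pi * j / q k) - 1),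
      √(w k) * Real.sin (2 * Real.pi * j / q k)⟩ : ℂ)) 2 := by
    intro j
    apply memℓp_gen
    simp only [ENNReal.toReal_ofNat, Real.rpow_ofNat]
    refine (trm_summable j).congr fun k => ?_
    have := normSq_aux (w k) (2 * Real.pi * j / q k) 0 (by linarith [w_ge k])
    simp only [Real.cos_zero, sub_self, mul_zero, Real.sin_zero, neg_zero, add_zero] at this
    rw [show (⟨0, 0⟩ : ℂ) = 0 from rfl, sub_zero] at this
    rw [this]
    rfl
  have hv : ∀ j : ℕ, Memℓp (fun k => (⟨√(w k) * (Real.cos (2 * Real.pi * j / q k) - 1),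
      -(√(w k) * Real.sin (2 * Real.pi * j / q k))⟩ : ℂ)) 2 := by
    intro j
    apply memℓp_gen
    simp only [ENNReal.toReal_ofNat, Real.rpow_ofNat]
    refine (trm_summable j).congr fun k => ?_
    have := normSq_aux (w k) 0 (2 * Real.pi * j / q k) (by linarith [w_ge k])
    simp only [Real.cos_zero, sub_self, mul_zero, Real.sin_zero, zero_add] at this
    rw [show (⟨0, 0⟩ : ℂ) = 0 from rfl, zero_sub, norm_neg] at this
    rw [this]
    rfl
  refine ⟨HS, inferInstance, inferInstance, fun j => ⟨_, hu j⟩, fun j => ⟨_, hv j⟩, ?_⟩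
  intro j n
  have h := lp.norm_rpow_eq_tsum (p := 2) (by norm_num)
    ((⟨_, hu j⟩ : HS) - (⟨_, hv n⟩ : HS))
  simp only [ENNReal.toReal_ofNat, Real.rpow_ofNat] at h
  rw [h]
  unfold psi
  congr 1
  funext k
  rw [lp.coeFn_sub, Pi.sub_apply]
  have := normSq_aux (w k) (2 * Real.pi * j / q k) (2 * Real.pi * n / q k) (by linarith [w_ge k])
  refine this.trans ?_
  unfold trm
  congr 3
  push_cast
  ring_nf

end Pool.Agent.Seat74.Null
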